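import Mathlib

set_option autoImplicit false

namespace Pool.Agent.Results.MP_d352c9_an.No

open Filter Topology Set MeasureTheory ArithmeticFunction

/-- exactly one invariant Borel probability measure -/
def UniquelyErgodic {X : Type} [MeasurableSpace X] (T : X → X) : Prop :=
  ∃! μ : Measure X, IsProbabilityMeasure μ ∧ MeasurePreserving T μ μ

/-- the averages along the number of prime factors of the values of `P` -/
noncomputable def avg {X : Type} (T : X → X) (P : MvPolynomial (Fin 2) ℤ) (F : X → ℂ) (x : X)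
    (N : ℕ) : ℂ :=
  (1 / (N : ℂ) ^ 2) * ∑ m ∈ Finset.Icc 1 N, ∑ n ∈ Finset.Icc 1 N,
    F (T^[cardFactors (MvPolynomial.eval ![(m : ℤ), (n : ℤ)] P).toNat] x)

lemma small_tot {ε : ℝ} (hε : 0 < ε) : ∃ Q : ℕ, Q ≠ 0 ∧ (Q.totient : ℝ) ≤ ε * Q := by
  have h := (not_summable_iff_tendsto_nat_atTop_of_nonneg (fun n => indicator_nonneg
    (fun _ _ => by positivity) n)).1 not_summable_one_div_on_primes
  obtain ⟨n, hn⟩ := (h.eventually_ge_atTop (-Real.log ε)).exists
  let s := (Finset.range n).filter Nat.Prime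
  have hs : ∀ p ∈ s, p.Prime := fun p hp => (Finset.mem_filter.1 hp).2
  refine ⟨∏ p ∈ s, p, Finset.prod_ne_zero_iff.2 fun p hp => (hs p hp).ne_zero, ?_⟩
  have h1 := Nat.totient_eq_mul_prod_factors (∏ p ∈ s, p)
  rw [Nat.primeFactors_prod hs] at h1
  have h2 : ((∏ p ∈ s, p).totient : ℝ) = (∏ p ∈ s, p : ℕ) * ∏ p ∈ s, (1 - (p : ℝ)⁻¹) := by
    have := congrArg (fun q : ℚ => (q : ℝ)) h1
    push_cast at this ⊢
    exact this
  rw [h2, mul_comm]
  refine mul_le_mul_of_nonneg_right ?_ (by positivity)
  have h3 : ∏ p ∈ s, (1 - (p : ℝ)⁻¹) ≤ ∏ p ∈ s, Real.exp (-(p : ℝ)⁻¹) :=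
    Finset.prod_le_prod (fun p hp => sub_nonneg.2 (inv_le_one_of_one_le₀
      (by exact_mod_cast (hs p hp).one_le))) fun p _ => by
        have := Real.add_one_le_exp (-(p : ℝ)⁻¹); linarith
  refine h3.trans ?_
  rw [← Real.exp_sum, ← Real.le_log_iff_exp_le hε, Finset.sum_neg_distrib]
  have h4 : ∑ i ∈ Finset.range n, indicator {p | p.Prime} (fun n : ℕ => (1 : ℝ) / n) i =
      ∑ p ∈ s, (p : ℝ)⁻¹ := by
    rw [Finset.sum_filter]
    refine Finset.sum_congr rfl fun i _ => ?_
    by_cases a : i.Prime <;> simp [indicator, a]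
  linarith

def few (K N : ℕ) : Finset ℕ := (Finset.Icc 1 N).filter fun m => cardFactors m ≤ K

lemma few_small (K : ℕ) : ∀ ε : ℝ, 0 < ε → ∀ᶠ N : ℕ in atTop, ((few K N).card : ℝ) ≤ ε * N := by
  have big : ∀ (c ε : ℝ), 0 < ε → ∀ᶠ N : ℕ in atTop, c ≤ ε * N := fun c ε hε =>
    (tendsto_natCast_atTop_atTop.const_mul_atTop hε).eventually_ge_atTop c
  induction K with
  | zero =>
    intro ε hε
    filter_upwards [big 1 ε hε] with N hN
    refine le_trans ?_ hN
    have : few 0 N ⊆ {1} := by
      intro m hm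
      simp only [few, Finset.mem_filter, Finset.mem_Icc, Nat.le_zero,
        cardFactors_eq_zero_iff_eq_zero_or_one] at hm
      simp; omega
    exact_mod_cast Finset.card_le_card this
  | succ K ih =>
    intro ε hε
    obtain ⟨Q, hQ, hq⟩ := small_tot (show 0 < ε / 3 by positivity)
    have hc : (0 : ℝ) < Q.primeFactors.card + 1 := by positivity
    filter_upwards [big Q.totient (ε / 3) (by positivity),
      ih (ε / 3 / (Q.primeFactors.card + 1)) (by positivity)] with N h1 h2
    have s : few (K + 1) N ⊆ ((Finset.Ico 1 (1 + N)).filter fun m => Q.Coprime m) ∪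
        Q.primeFactors.biUnion fun p => (few K N).image (p * ·) := by
      intro m hm
      simp only [few, Finset.mem_filter, Finset.mem_Icc] at hm
      by_cases a : Q.Coprime m
      · exact Finset.mem_union_left _ (Finset.mem_filter.2 ⟨Finset.mem_Ico.2 (by omega), a⟩)
      · obtain ⟨p, hp, h3, r, rfl⟩ := Nat.Prime.not_coprime_iff_dvd.1 a
        refine Finset.mem_union_right _ (Finset.mem_biUnion.2 ⟨p, Nat.mem_primeFactors.2
          ⟨hp, h3, hQ⟩, Finset.mem_image.2 ⟨r, ?_, rfl⟩⟩)
        have r0 : r ≠ 0 := by rintro rfl; simp at hm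
        rw [cardFactors_mul hp.ne_zero r0, cardFactors_apply_prime hp] at hm
        have := Nat.le_mul_of_pos_left r hp.pos
        simp only [few, Finset.mem_filter, Finset.mem_Icc]
        omega
    have c1 := (Finset.card_le_card s).trans (Finset.card_union_le _ _)
    have c2 := Nat.Ico_filter_coprime_le 1 N hQ
    have c3 : (Q.primeFactors.biUnion fun p => (few K N).image (p * ·)).card ≤
        Q.primeFactors.card * (few K N).card :=
      Finset.card_biUnion_le_card_mul _ _ _ fun p _ => Finset.card_image_le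
    have c4 : ((few (K + 1) N).card : ℝ) ≤ Q.totient * ((N / Q : ℕ) + 1) +
        Q.primeFactors.card * (few K N).card := by
      exact_mod_cast c1.trans (add_le_add c2 c3)
    have c5 : (Q : ℝ) * (N / Q : ℕ) ≤ N := by exact_mod_cast Nat.mul_div_le N Q
    have c6 : (Q.totient : ℝ) * (N / Q : ℕ) ≤ ε / 3 * N :=
      (mul_le_mul_of_nonneg_right hq (by positivity)).trans (by
        rw [mul_assoc]; exact mul_le_mul_of_nonneg_left c5 (by positivity))
    have c7 : ((Q.primeFactors.card : ℝ) + 1) * (few K N).card ≤ ε / 3 * N := by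
      have := mul_le_mul_of_nonneg_left h2 hc.le
      rwa [← mul_assoc, mul_div_cancel₀ _ hc.ne'] at this
    have c8 : (0 : ℝ) ≤ (few K N).card := by positivity
    nlinarith

lemma ex_g (K : ℕ) : ∃ N : ℕ, K + 1 ≤ N ∧ ((few K N).card : ℝ) ≤ 1 / 4 * N :=
  ((eventually_ge_atTop _).and (few_small K _ (by norm_num))).exists

noncomputable def g (K : ℕ) : ℕ := (ex_g K).choose

noncomputable def t : ℕ → ℕ
  | 0 => 0
  | j + 1 => 2 * (j + 1) * (t j + 1) + 4 * (Finset.Icc 1 (g (t j))).sup cardFactors

lemma t_succ (j : ℕ) : t (j + 1) =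
    2 * (j + 1) * (t j + 1) + 4 * (Finset.Icc 1 (g (t j))).sup cardFactors := rfl

lemma t_two (j : ℕ) : 2 * t j < t (j + 1) := by rw [t_succ]; nlinarith

lemma t_mono : StrictMono t := strictMono_nat_of_lt_succ fun j => by have := t_two j; omega

def XX : Type := {y : ℕ → Bool // ∀ a d, 0 < d → y (a + 1) = y a → y (a + d + 1) = y (a + d) →
  ∃ k, d ≤ t k ∧ t k ≤ 2 * d}

instance : TopologicalSpace XX := instTopologicalSpaceSubtype

instance : CompactSpace XX := by
  refine isCompact_iff_compactSpace.1 (IsClosed.isCompact ?_)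
  show IsClosed {y : ℕ → Bool | ∀ a d, 0 < d → y (a + 1) = y a → y (a + d + 1) = y (a + d) →
    ∃ k, d ≤ t k ∧ t k ≤ 2 * d}
  simp only [ofPred_forall]
  refine isClosed_iInter fun a => isClosed_iInter fun d => isClosed_iInter fun _ => ?_
  have : IsClosed ((fun y : ℕ → Bool => (y (a + 1), y a, y (a + d + 1), y (a + d))) ⁻¹'
      {z | z.1 = z.2.1 → z.2.2.1 = z.2.2.2 → ∃ k, d ≤ t k ∧ t k ≤ 2 * d}) :=
    (isClosed_discrete _).preimage (by fun_prop)
  convert this using 1
  ext y; simp

instance : TopologicalSpace.MetrizableSpace XX :=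
  Topology.IsEmbedding.subtypeVal.metrizableSpace

noncomputable instance : MetricSpace XX := TopologicalSpace.metrizableSpaceMetric XX
instance : MeasurableSpace XX := borel XX
instance : BorelSpace XX := ⟨rfl⟩

def TT (y : XX) : XX := ⟨fun n => y.1 (n + 1), fun a d hd h1 h2 => y.2 (a + 1) d hd h1 (by
  rw [show a + 1 + d = a + d + 1 by ring]; exact h2)⟩

lemma cev (n : ℕ) : Continuous fun y : XX => y.1 n :=
  (continuous_apply n).comp continuous_subtype_val

lemma TT_cont : Continuous TT :=
  Continuous.subtype_mk (continuous_pi fun n => cev (n + 1)) _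

lemma TT_iter (k : ℕ) (y : XX) (n : ℕ) : (TT^[k] y).1 n = y.1 (n + k) := by
  induction k generalizing y with
  | zero => rfl
  | succ k ih => rw [Function.iterate_succ_apply, ih]; rfl

def alt (b : Bool) (n : ℕ) : Bool := if Even n then b else !b

lemma alt_succ (b : Bool) (n : ℕ) : alt b (n + 1) = !alt b n := by
  unfold alt
  by_cases h : Even n <;> simp [Nat.even_add_one, h]

def pt (b : Bool) : XX := ⟨alt b, fun a d _ h => by rw [alt_succ] at h; simp at h⟩

lemma TT_pt (b : Bool) : TT (pt b) = pt (!b) := Subtype.ext (funext fun n => by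
  show alt b (n + 1) = alt (!b) n
  rw [alt_succ]; unfold alt; split_ifs <;> rfl)

def EE (n : ℕ) : Set XX := {y | y.1 (n + 1) = y.1 n}

lemma EE_meas (n : ℕ) : MeasurableSet (EE n) := (isClosed_eq (cev _) (cev _)).measurableSet

lemma EE_null {μ : Measure XX} [IsProbabilityMeasure μ] (h : MeasurePreserving TT μ μ) (n : ℕ) :
    μ (EE n) = 0 := by
  have e : ∀ n, μ (EE n) = μ (EE 0) := by
    intro n
    induction n with
    | zero => rfl
    | succ n ih => rw [← ih, ← h.measure_preimage (EE_meas n).nullMeasurableSet]; rfl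
  rw [e]
  have b : ∀ k : ℕ, ((k + 1 : ℕ) : ENNReal) * μ (EE 0) ≤ 1 := by
    intro k
    have d : ∀ i j, i < j → j ≤ k → Disjoint (EE (i * (t k + 1))) (EE (j * (t k + 1))) := by
      intro i j hij hj
      rw [disjoint_left]
      intro y h1 h2
      obtain ⟨r, rfl⟩ := Nat.exists_eq_add_of_lt hij
      obtain ⟨l, h3, h4⟩ := y.2 (i * (t k + 1)) ((r + 1) * (t k + 1)) (by positivity) h1 (by
        rw [show i * (t k + 1) + (r + 1) * (t k + 1) = (i + r + 1) * (t k + 1) by ring]; exact h2)
      have h5 : k < l := t_mono.lt_iff_lt.1 (by nlinarith)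
      have h6 := t_mono.monotone (show k + 1 ≤ l from h5)
      rw [t_succ] at h6
      have h7 : (r + 1) * (t k + 1) ≤ k * (t k + 1) := Nat.mul_le_mul_right _ (by omega)
      nlinarith
    have := sum_measure_le_measure_univ (μ := μ) (s := Finset.range (k + 1))
      (t := fun i => EE (i * (t k + 1))) (fun i _ => (EE_meas _).nullMeasurableSet) (by
        intro i hi j hj hij
        have hi := Finset.mem_range.1 hi
        have hj := Finset.mem_range.1 hj
        rcases lt_or_gt_of_ne hij with a | a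
        · exact (d i j a (by omega)).aedisjoint
        · exact (d j i a (by omega)).symm.aedisjoint)
    simpa [e] using this
  by_contra a
  obtain ⟨k, hk⟩ := ENNReal.exists_nat_mul_gt a (b := 1) ENNReal.one_ne_top
  refine absurd ((mul_le_mul_left ?_ _).trans (b k)) (not_le.2 hk)
  exact_mod_cast Nat.le_succ k

lemma conc {μ : Measure XX} [IsProbabilityMeasure μ] (h : MeasurePreserving TT μ μ) :
    μ = (2⁻¹ : ENNReal) • (Measure.dirac (pt true) + Measure.dirac (pt false)) := by
  have h1 : ∀ᵐ y ∂μ, y ∈ ({pt true} ∪ {pt false} : Set XX) := by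
    have : ∀ᵐ y ∂μ, ∀ n, y ∉ EE n := ae_all_iff.2 fun n => measure_eq_zero_iff_ae_notMem.1 (EE_null h n)
    filter_upwards [this] with y hy
    have e : y = pt (y.1 0) := Subtype.ext (funext fun n => by
      show y.1 n = alt (y.1 0) n
      induction n with
      | zero => simp [alt]
      | succ n ih => rw [alt_succ, ← ih]; exact Bool.eq_not_iff.2 (hy n))
    rw [e]; cases y.1 0 <;> simp
  have ne : pt true ≠ pt false := fun e => by
    have := congrFun (congrArg Subtype.val e) 0
    simp [pt, alt] at this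
  have h2 : ∀ b, μ {pt b} ≤ μ {pt (!b)} := fun b => by
    rw [← h.measure_preimage (measurableSet_singleton (pt (!b))).nullMeasurableSet]
    exact measure_mono (by simp [TT_pt])
  have h3 : μ {pt false} = μ {pt true} := le_antisymm (h2 false) (h2 true)
  have h4 : μ = μ {pt true} • (Measure.dirac (pt true) + Measure.dirac (pt false)) := by
    conv_lhs => rw [← Measure.restrict_eq_self_of_ae_mem h1]
    rw [Measure.restrict_union (by simpa using ne) (measurableSet_singleton _),
      Measure.restrict_singleton, Measure.restrict_singleton, h3, smul_add]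
  have h5 : μ {pt true} * 2 = 1 := by
    have := congrArg (fun ν : Measure XX => ν univ) h4
    simp only [measure_univ, Measure.smul_apply, Measure.add_apply, smul_eq_mul] at this
    rw [this]; norm_num
  rw [h4, ENNReal.eq_inv_of_mul_eq_one_left h5]

lemma ue : UniquelyErgodic TT := by
  refine ⟨(2⁻¹ : ENNReal) • (Measure.dirac (pt true) + Measure.dirac (pt false)),
    ⟨⟨?_⟩, TT_cont.measurable, ?_⟩, fun μ ⟨_, h⟩ => conc h⟩
  · simp only [measure_univ, Measure.smul_apply, Measure.add_apply, smul_eq_mul]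
    rw [one_add_one_eq_two, ENNReal.inv_mul_cancel] <;> simp
  · rw [Measure.map_smul, Measure.map_add _ _ TT_cont.measurable,
      Measure.map_dirac' TT_cont.measurable, Measure.map_dirac' TT_cont.measurable, TT_pt, TT_pt,
      add_comm]
    rfl

noncomputable def JJ (k : ℕ) : ℕ := {i | t i < k}.ncard

lemma JJ_eq {j k : ℕ} (h1 : t j < k) (h2 : k ≤ t (j + 1)) : JJ k = j + 1 := by
  have : {i | t i < k} = (Finset.range (j + 1) : Set ℕ) := by
    ext i
    simp only [mem_ofPred_eq, Finset.coe_range, mem_Iio]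
    exact ⟨fun a => t_mono.lt_iff_lt.1 (a.trans_le h2),
      fun a => (t_mono.monotone (by omega)).trans_lt h1⟩
  rw [JJ, this, ncard_coe_finset, Finset.card_range]

noncomputable def x0 (k : ℕ) : Bool := alt (alt true (JJ k)) k

lemma x0_def {n : ℕ} (h : x0 (n + 1) = x0 n) : ∃ j, t j = n := by
  by_contra a
  push Not at a
  have : JJ (n + 1) = JJ n := by
    unfold JJ
    congr 1
    ext i
    have := a i
    simp only [mem_ofPred_eq]; omega
  unfold x0 at h
  rw [this, alt_succ] at h
  simp at h

noncomputable def xx : XX := ⟨x0, fun a d hd h1 h2 => by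
  obtain ⟨i, hi⟩ := x0_def h1
  obtain ⟨j, hj⟩ := x0_def h2
  have h3 : i < j := t_mono.lt_iff_lt.1 (by omega)
  have h4 := t_two i
  have h5 := t_mono.monotone (show i + 1 ≤ j from h3)
  exact ⟨j, by omega, by omega⟩⟩

noncomputable def FF (b : Bool) (y : XX) : ℝ := if y.1 0 = b then 0 else 1

noncomputable def PP : MvPolynomial (Fin 2) ℤ := (MvPolynomial.X 0 * MvPolynomial.X 1) ^ 2

lemma PP_eval (m n : ℕ) : MvPolynomial.eval ![(m : ℤ), (n : ℤ)] PP = ((m * n) ^ 2 : ℕ) := by
  simp [PP]

noncomputable def av (b : Bool) (N : ℕ) : ℝ :=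
  (1 / (N : ℝ) ^ 2) * ∑ m ∈ Finset.Icc 1 N, ∑ n ∈ Finset.Icc 1 N,
    FF b (TT^[cardFactors ((m * n) ^ 2)] xx)

lemma av_le (j : ℕ) : av (alt true (j + 1)) (g (t j)) ≤ 1 / 4 := by
  obtain ⟨h1, h2⟩ := (ex_g (t j)).choose_spec
  change t j + 1 ≤ g (t j) at h1
  change ((few (t j) (g (t j))).card : ℝ) ≤ 1 / 4 * g (t j) at h2
  have ht := t_succ j
  generalize g (t j) = N at *
  have N0 : (0 : ℝ) < N := by exact_mod_cast (show 0 < N by omega)
  have s : ∀ m ∈ Finset.Icc 1 N, ∑ n ∈ Finset.Icc 1 N,
      FF (alt true (j + 1)) (TT^[cardFactors ((m * n) ^ 2)] xx) ≤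
        if cardFactors m ≤ t j then (N : ℝ) else 0 := by
    intro m hm
    split_ifs with a
    · refine (Finset.sum_le_card_nsmul _ _ 1 fun n _ => ?_).trans (by simp)
      unfold FF; split_ifs <;> norm_num
    · refine (Finset.sum_eq_zero fun n hn => if_pos ?_).le
      have b1 := Finset.le_sup (f := cardFactors) hm
      have b2 := Finset.le_sup (f := cardFactors) hn
      rw [Finset.mem_Icc] at hm hn
      rw [TT_iter, zero_add, cardFactors_pow, cardFactors_mul (by omega) (by omega)]
      show x0 _ = _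
      unfold x0
      rw [JJ_eq (j := j) (by omega) (by omega)]
      exact if_pos (by simp)
  have s2 := Finset.sum_le_sum s
  rw [← Finset.sum_filter, Finset.sum_const, nsmul_eq_mul] at s2
  unfold av
  rw [one_div, inv_mul_le_iff₀ (by positivity)]
  have s3 := mul_le_mul_of_nonneg_right h2 N0.le
  unfold few at s3
  nlinarith

lemma av_add {N : ℕ} (h : 0 < N) : av true N + av false N = 1 := by
  have N0 : (0 : ℝ) < N := by exact_mod_cast h
  unfold av
  rw [← mul_add, ← Finset.sum_add_distrib]
  have : ∀ y, FF true y + FF false y = 1 := fun y => by unfold FF; cases y.1 0 <;> simp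
  simp only [← Finset.sum_add_distrib, this]
  simp; field_simp

theorem result : ∃ (X : Type) (_ : MetricSpace X) (_ : CompactSpace X) (_ : MeasurableSpace X)
    (_ : BorelSpace X) (T : X → X) (P : MvPolynomial (Fin 2) ℤ) (d : ℕ) (F : X → ℂ) (x : X),
    Continuous T ∧ UniquelyErgodic T ∧ P.IsHomogeneous d ∧
    (∀ m n : ℕ, 0 < m → 0 < n → 0 < MvPolynomial.eval ![(m : ℤ), (n : ℤ)] P) ∧ Continuous F ∧
    ¬ ∃ L : ℂ, Tendsto (avg T P F x) atTop (𝓝 L) := by
  refine ⟨XX, inferInstance, inferInstance, inferInstance, inferInstance, TT, PP, (1 + 1) * 2,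
    fun y => FF true y, xx, TT_cont, ue, ?_, ?_, ?_, ?_⟩
  · exact ((MvPolynomial.isHomogeneous_X _ _).mul (MvPolynomial.isHomogeneous_X _ _)).pow 2
  · intro m n hm hn
    rw [PP_eval]; positivity
  · exact Complex.continuous_ofReal.comp ((continuous_of_discreteTopology
      (f := fun b : Bool => if b = true then (0 : ℝ) else 1)).comp (cev 0))
  · rintro ⟨L, hL⟩
    have e : ∀ N, (avg TT PP (fun y => FF true y) xx N).re = av true N := fun N => by
      have : avg TT PP (fun y => FF true y) xx N = (av true N : ℝ) := by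
        unfold avg av
        simp only [PP_eval, Int.toNat_natCast]
        push_cast; rfl
      rw [this, Complex.ofReal_re]
    have h1 : Tendsto (av true) atTop (𝓝 L.re) :=
      ((Complex.continuous_re.tendsto L).comp hL).congr e
    have gl : ∀ j, j + 1 ≤ g (t j) := fun j =>
      le_trans (Nat.succ_le_succ (t_mono.le_apply)) (ex_g (t j)).choose_spec.1
    have h2 : Tendsto (fun i => g (t (2 * i + 1))) atTop atTop :=
      tendsto_atTop_mono (fun i => le_trans (by simp; omega) (gl _)) tendsto_id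
    have h3 : Tendsto (fun i => g (t (2 * i))) atTop atTop :=
      tendsto_atTop_mono (fun i => le_trans (by simp; omega) (gl _)) tendsto_id
    have h4 : L.re ≤ 1 / 4 := le_of_tendsto' (h1.comp h2) fun i => by
      have := av_le (2 * i + 1)
      rwa [show alt true (2 * i + 1 + 1) = true from if_pos ⟨i + 1, by ring⟩] at this
    have h5 : 3 / 4 ≤ L.re := ge_of_tendsto' (h1.comp h3) fun i => by
      have := av_le (2 * i)
      rw [show alt true (2 * i + 1) = false from if_neg (by simp)] at this
      have h6 := av_add (show 0 < g (t (2 * i)) by have := gl (2 * i); omega)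
      show 3 / 4 ≤ av true _
      linarith
    linarith

end Pool.Agent.Results.MP_d352c9_an.No
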